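import Pool.Agent.OrientedForcing.Basic

/-!
# `MOF(G) ≥ n - μ(G)` for comparability graphs

Orient a comparability graph transitively. If a coloured vertex `u` forces `w`, all out-neighbours
of `w` are out-neighbours of `u`, hence coloured; so a forced vertex never forces and the forces
form a matching. Vertices outside an induced comparability graph are made to receive all arcs from
it.
-/

open OrientedForcing

set_option autoImplicit false

namespace Pool.Agent.Results.MP_610dff_co.ComparabilityGraphs

/-- `MOF(G) ≥ |W| - μ(G[W])` whenever `W` induces a comparability graph in `G`; in particular the
inequality of Q1 holds for every comparability graph `G`. -/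
theorem result :
    (∀ (V : Type) [Fintype V] (G : SimpleGraph V) (W : Finset V), InducesComparability G W →
      (W.card : ℤ) - matchingNumber G W ≤ MOF G 1) ∧
    (∀ (V : Type) [Fintype V] (G : SimpleGraph V), InducesComparability G Finset.univ →
      (Fintype.card V : ℤ) - matchingNumber G Finset.univ ≤ MOF G 1) := by
  have key : ∀ (V : Type) [Fintype V] (G : SimpleGraph V) (W : Finset V),
      InducesComparability G W → (W.card : ℤ) - matchingNumber G W ≤ MOF G 1 := by
    intro V _ G W hW
    rcases isEmpty_or_nonempty V with hV | hV
    · have : W.card = 0 := by
        rw [Finset.card_eq_zero]
        exact Finset.eq_empty_of_isEmpty W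
      rw [this]
      push_cast
      omega
    · have h := card_le_MOF_add_matching G W hW
      omega
  refine ⟨key, fun V _ G h => ?_⟩
  have := key V G Finset.univ h
  rwa [Finset.card_univ] at this

end Pool.Agent.Results.MP_610dff_co.ComparabilityGraphs
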