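import Pool.Agent.H293.MOFTri

/-! MP_610dff_co: MOF(G) ≥ n - μ(G) for a large recursively defined class of graphs. -/

set_option linter.unusedSectionVars false

namespace MOF293

open Finset

variable {V : Type*}

theorem matchOn_attained [DecidableEq V] (G : SimpleGraph V) (W : Finset V) :
    ∃ M, IsMatchingOn G W M ∧ M.card = matchOn G W := by
  have h1 : {k | ∃ M : Finset (Sym2 V), IsMatchingOn G W M ∧ M.card = k}.Nonempty :=
    ⟨0, ∅, ⟨fun e he => absurd he (Finset.notMem_empty _), fun e he => absurd he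
      (Finset.notMem_empty _)⟩, rfl⟩
  have h2 : BddAbove {k | ∃ M : Finset (Sym2 V), IsMatchingOn G W M ∧ M.card = k} := by
    refine ⟨W.sym2.card, ?_⟩
    rintro k ⟨M, hM, rfl⟩
    apply Finset.card_le_card
    intro e he
    exact Finset.mem_sym2_iff.2 (hM.1 e he).2
  exact Nat.sSup_mem h1 h2

theorem IsMatchingOn.insert' [DecidableEq V] {G : SimpleGraph V} {W : Finset V}
    {M : Finset (Sym2 V)} {e : Sym2 V} (h : IsMatchingOn G W M) (he : e ∈ G.edgeSet)
    (heW : ∀ v ∈ e, v ∈ W) (hd : ∀ f ∈ M, ∀ v ∈ e, v ∉ f) :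
    IsMatchingOn G W (insert e M) ∧ (insert e M).card = M.card + 1 := by
  have hne : e ∉ M := by
    intro heM
    induction e with
    | _ x y => exact hd _ heM x (Sym2.mem_mk_left _ _) (Sym2.mem_mk_left _ _)
  refine ⟨⟨?_, ?_⟩, Finset.card_insert_of_notMem hne⟩
  · intro f hf
    rcases Finset.mem_insert.1 hf with rfl | hf
    · exact ⟨he, heW⟩
    · exact h.1 f hf
  · intro f hf g hg hfg v hv hv'
    rcases Finset.mem_insert.1 hf with ef | hf1
    · rcases Finset.mem_insert.1 hg with eg | hg1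
      · exact hfg (ef.trans eg.symm)
      · exact hd g hg1 v (ef ▸ hv) hv'
    · rcases Finset.mem_insert.1 hg with eg | hg1
      · exact hd f hf1 v (eg ▸ hv') hv
      · exact h.2 f hf1 g hg1 hfg v hv hv'

theorem matchOn_pair [DecidableEq V] {G : SimpleGraph V} {W : Finset V} {u v : V} (hu : u ∈ W)
    (hv : v ∈ W) (huv : G.Adj u v) : matchOn G ((W.erase u).erase v) + 1 ≤ matchOn G W := by
  obtain ⟨M, hM, hc⟩ := matchOn_attained G ((W.erase u).erase v)
  have h0 : IsMatchingOn G W M :=
    ⟨fun e he => ⟨(hM.1 e he).1, fun x hx => (mem_e2.1 ((hM.1 e he).2 x hx)).2.2⟩, hM.2⟩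
  obtain ⟨h1, h2⟩ := h0.insert' (e := s(u, v)) huv
    (by intro x hx; rcases Sym2.mem_iff.1 hx with rfl | rfl <;> assumption)
    (by
      intro f hf x hx hxf
      obtain ⟨a1, a2, _⟩ := mem_e2.1 ((hM.1 f hf).2 x hxf)
      rcases Sym2.mem_iff.1 hx with rfl | rfl
      · exact a2 rfl
      · exact a1 rfl)
  have := le_matchOn h1
  omega

theorem matchOn_path [DecidableEq V] {G G' : SimpleGraph V} {W : Finset V} {s t p q : V}
    (hp : p ∈ W) (hq : q ∈ W) (hpq : G.Adj p q) (hsp : G.Adj s p) (hqt : G.Adj q t)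
    (hs : s ∈ (W.erase p).erase q) (ht : t ∈ (W.erase p).erase q) (hst : s ≠ t)
    (hG' : ∀ x ∈ (W.erase p).erase q, ∀ y ∈ (W.erase p).erase q,
      G'.Adj x y → G.Adj x y ∨ (x = s ∧ y = t) ∨ (x = t ∧ y = s)) :
    matchOn G' ((W.erase p).erase q) + 1 ≤ matchOn G W := by
  obtain ⟨M, hM, hc⟩ := matchOn_attained G' ((W.erase p).erase q)
  obtain ⟨sq, sp, sW⟩ := mem_e2.1 hs
  obtain ⟨tq, tp, tW⟩ := mem_e2.1 ht
  -- edges of M other than st are edges of G
  have hedge : ∀ e ∈ M, e ≠ s(s, t) → e ∈ G.edgeSet := by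
    intro e he hne
    induction e with
    | _ x y =>
      obtain ⟨h1, h2⟩ := hM.1 _ he
      rcases hG' x (h2 x (Sym2.mem_mk_left _ _)) y (h2 y (Sym2.mem_mk_right _ _)) h1 with h | h | h
      · exact h
      · exact absurd (by rw [h.1, h.2]) hne
      · exact absurd (by rw [h.1, h.2, Sym2.eq_swap]) hne
  by_cases hmem : s(s, t) ∈ M
  · have h0 : IsMatchingOn G W (M.erase s(s, t)) := by
      refine ⟨fun e he => ?_, fun e he f hf => hM.2 e (Finset.mem_erase.1 he).2 f (Finset.mem_erase.1 hf).2⟩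
      obtain ⟨h1, h2⟩ := Finset.mem_erase.1 he
      exact ⟨hedge e h2 h1, fun x hx => (mem_e2.1 ((hM.1 e h2).2 x hx)).2.2⟩
    obtain ⟨h1, h2⟩ := h0.insert' (e := s(q, t)) hqt
      (by intro x hx; rcases Sym2.mem_iff.1 hx with rfl | rfl <;> assumption)
      (by
        intro f hf x hx hxf
        obtain ⟨k1, k2⟩ := Finset.mem_erase.1 hf
        obtain ⟨a1, a2, _⟩ := mem_e2.1 ((hM.1 f k2).2 x hxf)
        rcases Sym2.mem_iff.1 hx with ex | ex
        · exact a1 ex
        · exact hM.2 f k2 _ hmem k1 x hxf (by rw [ex]; exact Sym2.mem_mk_right _ _))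
    obtain ⟨h3, h4⟩ := h1.insert' (e := s(s, p)) hsp
      (by intro x hx; rcases Sym2.mem_iff.1 hx with rfl | rfl <;> assumption)
      (by
        intro f hf x hx hxf
        rcases Finset.mem_insert.1 hf with ef | hf1
        · rw [ef] at hxf
          rcases Sym2.mem_iff.1 hx with ex | ex
          · rcases Sym2.mem_iff.1 hxf with h | h
            · exact sq (ex.symm.trans h)
            · exact hst (ex.symm.trans h)
          · rcases Sym2.mem_iff.1 hxf with h | h
            · exact hpq.ne (ex.symm.trans h)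
            · exact tp (h.symm.trans ex)
        · obtain ⟨k1, k2⟩ := Finset.mem_erase.1 hf1
          obtain ⟨a1, a2, _⟩ := mem_e2.1 ((hM.1 f k2).2 x hxf)
          rcases Sym2.mem_iff.1 hx with ex | ex
          · exact hM.2 f k2 _ hmem k1 x hxf (by rw [ex]; exact Sym2.mem_mk_left _ _)
          · exact a2 ex)
    have h5 := le_matchOn h3
    have h6 := Finset.card_erase_add_one hmem
    omega
  · have h0 : IsMatchingOn G W M :=
      ⟨fun e he => ⟨hedge e he (fun h => hmem (h ▸ he)),
        fun x hx => (mem_e2.1 ((hM.1 e he).2 x hx)).2.2⟩, hM.2⟩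
    obtain ⟨h1, h2⟩ := h0.insert' (e := s(p, q)) hpq
      (by intro x hx; rcases Sym2.mem_iff.1 hx with rfl | rfl <;> assumption)
      (by
        intro f hf x hx hxf
        obtain ⟨a1, a2, _⟩ := mem_e2.1 ((hM.1 f hf).2 x hxf)
        rcases Sym2.mem_iff.1 hx with rfl | rfl
        · exact a2 rfl
        · exact a1 rfl)
    have := le_matchOn h1
    omega

theorem good_isolated [DecidableEq V] (G : SimpleGraph V) (W : Finset V) (u : V) (k : ℕ)
    (hu : u ∈ W) (hN : ∀ x ∈ W, ¬ G.Adj u x) (h : GoodK G (W.erase u) k) : GoodK G W k := by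
  classical
  obtain ⟨D', hD', hF⟩ := h
  refine ⟨fun x y => if x = u ∨ y = u then False else D' x y, ?_, ?_⟩
  · intro x hx y hy
    by_cases hxu : x = u
    · subst hxu
      have := hN y hy
      simp [this]
    · by_cases hyu : y = u
      · subst hyu
        have : ¬ G.Adj x y := fun h => hN x hx h.symm
        simp [this]
      · simp only [hxu, hyu, if_false, or_self]
        exact hD' x (Finset.mem_erase.2 ⟨hxu, hx⟩) y (Finset.mem_erase.2 ⟨hyu, hy⟩)
  · intro S hS
    have huS : u ∈ S := source_mem hS hu (fun x _ => by simp)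
    have h1 : Forc D' (W.erase u) (S.erase u) := by
      apply forc_of_cl (Finset.erase_subset_erase _ hS.1)
      set T := cl D' (W.erase u) (S.erase u) with hT
      have hTW : T ⊆ W.erase u := cl_sub _ _ _
      have hA : insert u T = W := by
        apply hS.2
        · intro x hx
          by_cases hxu : x = u
          · rw [hxu]; exact Finset.mem_insert_self _ _
          · exact Finset.mem_insert_of_mem (sub_cl D' (Finset.erase_subset_erase _ hS.1)
              (Finset.mem_erase.2 ⟨hxu, hx⟩))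
        · intro x hx
          rcases Finset.mem_insert.1 hx with rfl | hx
          · exact hu
          · exact (Finset.mem_erase.1 (hTW hx)).2
        · intro x hx w hw hxw hz
          by_cases hwu : w = u
          · rw [hwu]; exact Finset.mem_insert_self _ _
          · have hxu : x ≠ u := by
              rintro rfl; simp at hxw
            simp only [hxu, hwu, if_false, or_self] at hxw
            have hxT : x ∈ T := (Finset.mem_insert.1 hx).resolve_left hxu
            refine Finset.mem_insert_of_mem (cl_closed D' _ _ x hxT w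
              (Finset.mem_erase.2 ⟨hwu, hw⟩) hxw fun z hz1 hz2 hz3 => ?_)
            obtain ⟨hzu, hzW⟩ := Finset.mem_erase.1 hz1
            have := hz z hzW (by simp only [hxu, hzu, if_false, or_self]; exact hz2) hz3
            exact (Finset.mem_insert.1 this).resolve_left hzu
      apply Finset.Subset.antisymm hTW
      intro x hx
      obtain ⟨h1, h2⟩ := Finset.mem_erase.1 hx
      rw [← hA] at h2
      exact (Finset.mem_insert.1 h2).resolve_left h1
    have h2 := hF _ h1
    have h3 := Finset.card_erase_add_one hu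
    have h4 := Finset.card_erase_add_one huS
    omega

theorem GoodK.mono [DecidableEq V] {G : SimpleGraph V} {W : Finset V} {k l : ℕ}
    (h : GoodK G W k) (hkl : k ≤ l) : GoodK G W l := by
  obtain ⟨D, hD, hF⟩ := h
  exact ⟨D, hD, fun S hS => (hF S hS).trans (Nat.add_le_add_left hkl _)⟩

/-- The matching-reducible graphs: `MReducible G W` speaks of the induced subgraph `G[W]`. -/
inductive MReducible [DecidableEq V] : SimpleGraph V → Finset V → Prop
  /-- comparability graphs -/
  | comparability {G : SimpleGraph V} {W : Finset V} : IsComparabilityOn G W → MReducible G W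
  /-- a vertex covered by every maximum matching is added -/
  | vertex {G : SimpleGraph V} {W : Finset V} {v : V} : v ∈ W →
      matchOn G (W.erase v) < matchOn G W → MReducible G (W.erase v) → MReducible G W
  /-- an isolated vertex is added -/
  | isolated {G : SimpleGraph V} {W : Finset V} {u : V} : u ∈ W → (∀ x ∈ W, ¬ G.Adj u x) →
      MReducible G (W.erase u) → MReducible G W
  /-- `v` is the only neighbour of `u` -/
  | pendant {G : SimpleGraph V} {W : Finset V} {u v : V} : u ∈ W → v ∈ W → G.Adj u v →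
      (∀ x ∈ W, G.Adj u x → x = v) → MReducible G ((W.erase u).erase v) → MReducible G W
  /-- `u`, `v` are adjacent twins -/
  | twins {G : SimpleGraph V} {W : Finset V} {u v : V} : u ∈ W → v ∈ W → G.Adj u v →
      (∀ x ∈ W, x ≠ u → x ≠ v → (G.Adj u x ↔ G.Adj v x)) →
      MReducible G ((W.erase u).erase v) → MReducible G W
  /-- `u`, `v` are twins (adjacent or not) whose deletion lowers the matching number -/
  | falseTwins {G : SimpleGraph V} {W : Finset V} {u v : V} : u ∈ W → v ∈ W → u ≠ v →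
      (∀ x ∈ W, x ≠ u → x ≠ v → (G.Adj u x ↔ G.Adj v x)) →
      matchOn G ((W.erase u).erase v) < matchOn G W →
      MReducible G ((W.erase u).erase v) → MReducible G W
  /-- two pieces sharing the vertex `c` are glued; a maximum matching of the whole is at least as
  large as maximum matchings of the two pieces together -/
  | glue {G : SimpleGraph V} {W1 W2 : Finset V} {c : V} : c ∈ W1 → c ∈ W2 →
      (∀ x ∈ W1, x ∈ W2 → x = c) →
      (∀ x ∈ W1, ∀ y ∈ W2, x ≠ c → y ≠ c → ¬ G.Adj x y) →
      matchOn G W1 + matchOn G W2 ≤ matchOn G (W1 ∪ W2) →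
      MReducible G W1 → MReducible G W2 → MReducible G (W1 ∪ W2)
  /-- `p`, `q` are adjacent vertices of degree two, on the path `a p q b`; they are replaced by
  the edge `a b` -/
  | subdivision {G G' : SimpleGraph V} {W : Finset V} {a b p q : V} :
      a ∈ W → b ∈ W → p ∈ W → q ∈ W → a ≠ b → a ≠ p → a ≠ q → b ≠ p → b ≠ q → p ≠ q →
      (∀ x ∈ W, G.Adj p x ↔ x = a ∨ x = q) → (∀ x ∈ W, G.Adj q x ↔ x = p ∨ x = b) →
      (∀ x ∈ (W.erase p).erase q, ∀ y ∈ (W.erase p).erase q,
        G'.Adj x y ↔ G.Adj x y ∨ (x = a ∧ y = b) ∨ (x = b ∧ y = a)) →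
      MReducible G' ((W.erase p).erase q) → MReducible G W
  /-- `u a b` is a triangle, `u` has degree two and `a` has degree three with third neighbour `x`;
  `u` and `a` are deleted and `b`, `x` are made adjacent -/
  | triangle {G G' : SimpleGraph V} {W : Finset V} {u a b x : V} :
      u ∈ W → a ∈ W → b ∈ W → x ∈ W → u ≠ a → u ≠ b → u ≠ x → a ≠ b → a ≠ x → b ≠ x →
      (∀ z ∈ W, G.Adj u z ↔ z = a ∨ z = b) → (∀ z ∈ W, G.Adj a z ↔ z = u ∨ z = b ∨ z = x) →
      (∀ y ∈ (W.erase u).erase a, ∀ z ∈ (W.erase u).erase a,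
        G'.Adj y z ↔ G.Adj y z ∨ (y = b ∧ z = x) ∨ (y = x ∧ z = b)) →
      MReducible G' ((W.erase u).erase a) → MReducible G W

theorem good_of_mreducible [DecidableEq V] {G : SimpleGraph V} {W : Finset V}
    (h : MReducible G W) : GoodK G W (matchOn G W) := by
  induction h with
  | comparability h => obtain ⟨D, h1, h2⟩ := h; exact good_comp_match _ _ D h1 h2
  | vertex hv hm _ ih => exact (good_vertex _ _ _ _ hv ih).mono (by omega)
  | @isolated G W u hu hN _ ih =>
    refine (good_isolated _ _ _ _ hu hN ih).mono ?_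
    obtain ⟨M, hM, hc⟩ := matchOn_attained G (W.erase u)
    rw [← hc]
    exact le_matchOn ⟨fun e he => ⟨(hM.1 e he).1,
      fun x hx => (Finset.mem_erase.1 ((hM.1 e he).2 x hx)).2⟩, hM.2⟩
  | pendant hu hv huv hN _ ih =>
    exact (good_pendant _ _ _ _ _ hu hv huv.ne hN ih).mono (matchOn_pair hu hv huv)
  | twins hu hv huv hN _ ih =>
    exact (good_twins _ _ _ _ _ hu hv huv.ne hN ih).mono (matchOn_pair hu hv huv)
  | falseTwins hu hv huv hN hm _ ih =>
    exact (good_twins _ _ _ _ _ hu hv huv hN ih).mono (by omega)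
  | glue hc1 hc2 hcap hno hm _ _ ih1 ih2 =>
    exact (good_glue _ _ _ _ _ _ hc1 hc2 hcap hno ih1 ih2).mono hm
  | @subdivision G G' W a b p q ha hb hp hq h0 h1 h2 h3 h4 h5 hNp hNq hG' _ ih =>
    refine (good_subdiv _ _ _ _ _ _ _ _ ha hb hp hq h1 h2 h3 h4 h5 hNp hNq hG' ih).mono ?_
    exact matchOn_path (s := a) (t := b) hp hq ((hNp q hq).2 (Or.inr rfl))
      (((hNp a ha).2 (Or.inl rfl)).symm) ((hNq b hb).2 (Or.inr rfl))
      (mem_e2.2 ⟨h2, h1, ha⟩) (mem_e2.2 ⟨h4, h3, hb⟩) h0 (fun x hx y hy h => (hG' x hx y hy).1 h)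
  | @triangle G G' W u a b x hu ha hb hx h1 h2 h3 h4 h5 h6 hNu hNa hG' _ ih =>
    refine (good_tri _ _ _ _ _ _ _ _ hu ha hb hx h1 h2 h3 h4 h5 h6 hNu hNa hG' ih).mono ?_
    exact matchOn_path (s := b) (t := x) hu ha ((hNu a ha).2 (Or.inl rfl))
      (((hNu b hb).2 (Or.inr rfl)).symm) ((hNa x hx).2 (Or.inr (Or.inr rfl)))
      (mem_e2.2 ⟨h4.symm, h2.symm, hb⟩) (mem_e2.2 ⟨h5.symm, h3.symm, hx⟩) h6
      (fun y hy z hz h => (hG' y hy z hz).1 h)

/-- vertices covered by `M` -/
def cov [DecidableEq V] (M : Finset (Sym2 V)) : Finset V := M.biUnion Sym2.toFinset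

theorem mem_cov [DecidableEq V] {M : Finset (Sym2 V)} {x : V} : x ∈ cov M ↔ ∃ e ∈ M, x ∈ e := by
  simp [cov]

theorem card_cov [DecidableEq V] {G : SimpleGraph V} {W : Finset V} {M : Finset (Sym2 V)}
    (h : IsMatchingOn G W M) : (cov M).card = 2 * M.card := by
  unfold cov
  rw [Finset.card_biUnion]
  · rw [Finset.sum_congr rfl (g := fun _ => 2), Finset.sum_const, smul_eq_mul, mul_comm]
    intro e he
    exact Sym2.card_toFinset_of_not_isDiag _ (G.not_isDiag_of_mem_edgeSet (h.1 e he).1)
  · intro e he f hf hef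
    rw [Function.onFun, Finset.disjoint_left]
    intro x hx hx'
    exact h.2 e he f hf hef x (Sym2.mem_toFinset.1 hx) (Sym2.mem_toFinset.1 hx')

/-- two uncovered adjacent vertices enlarge a matching -/
theorem no_two [DecidableEq V] {G : SimpleGraph V} {W : Finset V} {M : Finset (Sym2 V)}
    (h : IsMatchingOn G W M) (hM : M.card = matchOn G W) {x y : V} (hx : x ∈ W) (hy : y ∈ W)
    (hxy : G.Adj x y) (h1 : x ∉ cov M) (h2 : y ∉ cov M) : False := by
  obtain ⟨h3, h4⟩ := h.insert' (e := s(x, y)) hxy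
    (by intro v hv; rcases Sym2.mem_iff.1 hv with rfl | rfl <;> assumption)
    (by
      intro f hf v hv hvf
      rcases Sym2.mem_iff.1 hv with e | e
      · exact h1 (mem_cov.2 ⟨f, hf, e ▸ hvf⟩)
      · exact h2 (mem_cov.2 ⟨f, hf, e ▸ hvf⟩))
  have := le_matchOn h3
  omega

/-- Gallai's lemma at distance two -/
theorem gallai_two [DecidableEq V] (G : SimpleGraph V) (W : Finset V) (u v w : V)
    (hu : u ∈ W) (hv : v ∈ W) (hw : w ∈ W) (huv : u ≠ v) (huw : G.Adj u w) (hvw : G.Adj v w)
    (h1 : ¬ matchOn G ((W.erase u).erase v) < matchOn G W)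
    (h2 : ¬ matchOn G (W.erase w) < matchOn G W) : False := by
  classical
  obtain ⟨M, hM, hMc⟩ := matchOn_attained G ((W.erase u).erase v)
  have hMW : IsMatchingOn G W M :=
    ⟨fun e he => ⟨(hM.1 e he).1, fun x hx => (mem_e2.1 ((hM.1 e he).2 x hx)).2.2⟩, hM.2⟩
  have hMc' : M.card = matchOn G W := by
    have := le_matchOn hMW
    omega
  have huM : u ∉ cov M := by
    intro h
    obtain ⟨e, he, hue⟩ := mem_cov.1 h
    exact (mem_e2.1 ((hM.1 e he).2 u hue)).2.1 rfl
  have hvM : v ∉ cov M := by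
    intro h
    obtain ⟨e, he, hue⟩ := mem_cov.1 h
    exact (mem_e2.1 ((hM.1 e he).2 v hue)).1 rfl
  let P : Finset (Sym2 V) → Prop := fun N => IsMatchingOn G W N ∧ N.card = matchOn G W ∧ w ∉ cov N
  obtain ⟨N0, hN0, hN0c⟩ := matchOn_attained G (W.erase w)
  have hN0W : IsMatchingOn G W N0 :=
    ⟨fun e he => ⟨(hN0.1 e he).1, fun x hx => (Finset.mem_erase.1 ((hN0.1 e he).2 x hx)).2⟩, hN0.2⟩
  have hP0 : P N0 := by
    refine ⟨hN0W, ?_, ?_⟩
    · have := le_matchOn hN0W
      omega
    · intro h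
      obtain ⟨e, he, hue⟩ := mem_cov.1 h
      exact (Finset.mem_erase.1 ((hN0.1 e he).2 w hue)).1 rfl
  obtain ⟨N, hN, hmax⟩ : ∃ N, P N ∧ ∀ N', P N' → (M ∩ N').card ≤ (M ∩ N).card := by
    have hfin : ({N | P N} : Set (Finset (Sym2 V))).Finite :=
      (Finset.finite_toSet W.sym2.powerset).subset (fun N hN => by
        rw [Finset.mem_coe, Finset.mem_powerset]
        intro e he
        exact Finset.mem_sym2_iff.2 (hN.1.1 e he).2)
    obtain ⟨N, hN, hm⟩ := Set.exists_max_image {N | P N} (fun N => (M ∩ N).card) hfin ⟨N0, hP0⟩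
    exact ⟨N, hN, hm⟩
  obtain ⟨hNW, hNc, hwN⟩ := hN
  have huN : u ∈ cov N := by
    by_contra h
    exact no_two hNW hNc hu hw huw h hwN
  have hvN : v ∈ cov N := by
    by_contra h
    exact no_two hNW hNc hv hw hvw h hwN
  have hc1 := card_cov hMW
  have hc2 := card_cov hNW
  have hc3 : ((cov M) \ (cov N)).card = ((cov N) \ (cov M)).card := by
    have e1 := Finset.card_sdiff_add_card_inter (cov M) (cov N)
    have e2 := Finset.card_sdiff_add_card_inter (cov N) (cov M)
    rw [Finset.inter_comm] at e2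
    omega
  have hc4 : 1 < ((cov N) \ (cov M)).card :=
    Finset.one_lt_card.2 ⟨u, Finset.mem_sdiff.2 ⟨huN, huM⟩, v, Finset.mem_sdiff.2 ⟨hvN, hvM⟩, huv⟩
  obtain ⟨x, hx, hxw⟩ : ∃ x ∈ (cov M) \ (cov N), x ≠ w := by
    rw [← hc3] at hc4
    exact Finset.exists_mem_ne hc4 w
  obtain ⟨hxM, hxN⟩ := Finset.mem_sdiff.1 hx
  obtain ⟨e, heM, hxe⟩ := mem_cov.1 hxM
  obtain ⟨y, rfl⟩ := Sym2.mem_iff_exists.1 hxe
  have hxW : x ∈ W := (hMW.1 _ heM).2 x (Sym2.mem_mk_left _ _)
  have hyW : y ∈ W := (hMW.1 _ heM).2 y (Sym2.mem_mk_right _ _)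
  have hxy : G.Adj x y := (hMW.1 _ heM).1
  have hyN : y ∈ cov N := by
    by_contra h
    exact no_two hNW hNc hxW hyW hxy hxN h
  have hyw : y ≠ w := fun e => hwN (e ▸ hyN)
  obtain ⟨f, hfN, hyf⟩ := mem_cov.1 hyN
  have hxf : x ∉ f := fun h => hxN (mem_cov.2 ⟨f, hfN, h⟩)
  have hfM : f ∉ M := by
    intro hfM
    by_cases hef : s(x, y) = f
    · exact hxf (hef ▸ Sym2.mem_mk_left _ _)
    · exact hMW.2 _ heM f hfM hef y (Sym2.mem_mk_right _ _) hyf
  have hN1 : IsMatchingOn G W (N.erase f) :=
    ⟨fun e he => hNW.1 e (Finset.mem_erase.1 he).2,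
      fun e he g hg => hNW.2 e (Finset.mem_erase.1 he).2 g (Finset.mem_erase.1 hg).2⟩
  obtain ⟨h3, h4⟩ := hN1.insert' (e := s(x, y)) hxy
    (by intro v hv; rcases Sym2.mem_iff.1 hv with rfl | rfl <;> assumption)
    (by
      intro g hg v hv hvg
      obtain ⟨k1, k2⟩ := Finset.mem_erase.1 hg
      rcases Sym2.mem_iff.1 hv with e | e
      · exact hxN (mem_cov.2 ⟨g, k2, e ▸ hvg⟩)
      · exact hNW.2 g k2 f hfN k1 y (e ▸ hvg) hyf)
  have h5 := Finset.card_erase_add_one hfN
  have h6 := hmax (insert s(x, y) (N.erase f)) ⟨h3, by omega, by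
    intro h
    obtain ⟨g, hg, hwg⟩ := mem_cov.1 h
    rcases Finset.mem_insert.1 hg with e | hg
    · rw [e] at hwg
      rcases Sym2.mem_iff.1 hwg with e | e
      · exact hxw e.symm
      · exact hyw e.symm
    · exact hwN (mem_cov.2 ⟨g, (Finset.mem_erase.1 hg).2, hwg⟩)⟩
  have h7 : insert s(x, y) (M ∩ N) ⊆ M ∩ insert s(x, y) (N.erase f) := by
    intro g hg
    rcases Finset.mem_insert.1 hg with e | hg
    · rw [e]; exact Finset.mem_inter.2 ⟨heM, Finset.mem_insert_self _ _⟩
    · obtain ⟨k1, k2⟩ := Finset.mem_inter.1 hg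
      exact Finset.mem_inter.2 ⟨k1, Finset.mem_insert_of_mem (Finset.mem_erase.2
        ⟨fun e => hfM (e ▸ k1), k2⟩)⟩
  have h8 := Finset.card_le_card h7
  have h9 : s(x, y) ∉ M ∩ N := fun h => hxN (mem_cov.2 ⟨_, (Finset.mem_inter.1 h).2,
    Sym2.mem_mk_left _ _⟩)
  rw [Finset.card_insert_of_notMem h9] at h8
  omega

/-- every induced subgraph with at least two vertices has twins, an isolated vertex or a vertex
with exactly one neighbour (by Bandelt and Mulder these are the distance-hereditary graphs) -/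
def HasTwinsOrPendants (G : SimpleGraph V) : Prop :=
  ∀ W : Finset V, 2 ≤ W.card → ∃ u ∈ W, ∃ v ∈ W, u ≠ v ∧
    ((∀ x ∈ W, G.Adj u x → x = v) ∨ (∀ x ∈ W, x ≠ u → x ≠ v → (G.Adj u x ↔ G.Adj v x)))

theorem mreducible_of_twinPendant [DecidableEq V] (G : SimpleGraph V) (h : HasTwinsOrPendants G) :
    ∀ n, ∀ W : Finset V, W.card = n → MReducible G W := by
  intro n
  induction n using Nat.strong_induction_on with
  | _ n ih =>
    intro W hW
    by_cases h2 : 2 ≤ W.card
    · obtain ⟨u, hu, v, hv, huv, h3⟩ := h W h2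
      have hc := card_erase2 hu hv huv
      have hr := ih _ (by omega) ((W.erase u).erase v) rfl
      have hone : ∀ z ∈ W, MReducible G (W.erase z) := by
        intro z hz
        have := Finset.card_erase_add_one hz
        exact ih _ (by omega) _ rfl
      by_cases hiso : ∀ x ∈ W, ¬ G.Adj u x
      · exact MReducible.isolated hu hiso (hone u hu)
      · push Not at hiso
        obtain ⟨w, hw, huw⟩ := hiso
        rcases h3 with h3 | h3
        · have := h3 w hw huw
          subst this
          exact MReducible.pendant hu hv huw h3 hr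
        · by_cases hadj : G.Adj u v
          · exact MReducible.twins hu hv hadj h3 hr
          · have hwv : w ≠ v := fun e => hadj (e ▸ huw)
            have hvw : G.Adj v w := (h3 w hw huw.ne' hwv).1 huw
            by_cases k1 : matchOn G ((W.erase u).erase v) < matchOn G W
            · exact MReducible.falseTwins hu hv huv h3 k1 hr
            · by_cases k2 : matchOn G (W.erase w) < matchOn G W
              · exact MReducible.vertex hw k2 (hone w hw)
              · exact (gallai_two G W u v w hu hv hw huv huw hvw k1 k2).elim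
    · apply MReducible.comparability
      refine ⟨fun _ _ => False, ?_, ?_⟩
      · intro u hu v hv
        have : u = v := Finset.card_le_one.1 (by omega) u hu v hv
        subst this
        exact ⟨False.elim, fun h => absurd h (G.loopless.irrefl _), fun h => h.elim⟩
      · intro u _ v _ w _ h; exact h.elim

end MOF293

namespace Pool.Agent.Results.MP_610dff_co.ComparabilityReducible

open MOF293 Finset

/-- **Q1 for matching-reducible graphs**, in particular for graphs all of whose induced subgraphs have an isolated vertex, a pendant vertex or twins. -/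
theorem result :
    (∀ (V : Type) [Fintype V] [Nonempty V] [DecidableEq V] (G : SimpleGraph V),
      MReducible G Finset.univ → Fintype.card V ≤ MOF G + matchOn G Finset.univ) ∧
    (∀ (V : Type) [Fintype V] [Nonempty V] (G : SimpleGraph V),
      HasTwinsOrPendants G → Fintype.card V ≤ MOF G + matchOn G Finset.univ) := by
  classical
  exact ⟨fun V _ _ _ G h => le_MOF G _ (good_of_mreducible h),
    fun V _ _ G h => le_MOF G _ (good_of_mreducible (mreducible_of_twinPendant G h _ _ rfl))⟩

end Pool.Agent.Results.MP_610dff_co.ComparabilityReducible
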