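import Pool.Agent.OrientedForcing.DenseReal

/-!
# `MOF(G) ≥ n - μ(G)` for dense graphs

If an orientation of `G` has a forcing set of size at most `s`, a chronological list of forces
(times and forcing vertices: at most `n^(2n)` lists) determines the direction of all but few arcs:
when `w` is coloured by `u`, all arcs between `u` and the vertices coloured not before `w` are
known. These are at least `m (m + 1) / 2` pairs, `m = n - s`. So if `G` misses few edges, the
number `2^e` of orientations exceeds the number of orientations with such a forcing set.
-/

open OrientedForcing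

set_option autoImplicit false

namespace Pool.Agent.Results.MP_610dff_co.DenseGraphs

/-- (1) The inequality of Q1 for all graphs with `ē + 2 n log₂ n ≤ μ(G)² / 2`, where `ē` is the
number of edges of the complement; (2) the inequality of Q1 for all large graphs with at most
`n² / 20` missing edges. -/
theorem result :
    (∀ (V : Type) [Fintype V] (G : SimpleGraph V),
      (Gᶜ.edgeSet.ncard : ℝ) + 2 * Fintype.card V * Real.logb 2 (Fintype.card V) ≤
        (matchingNumber G Finset.univ : ℝ) ^ 2 / 2 →
      (Fintype.card V : ℤ) - matchingNumber G Finset.univ ≤ MOF G 1) ∧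
    (∃ N : ℕ, ∀ (V : Type) [Fintype V] (G : SimpleGraph V), N ≤ Fintype.card V →
      (Gᶜ.edgeSet.ncard : ℝ) ≤ (Fintype.card V : ℝ) ^ 2 / 20 →
      (Fintype.card V : ℤ) - matchingNumber G Finset.univ ≤ MOF G 1) :=
  ⟨fun _ _ G h => dense_matching G h, dense_matching_eventually⟩

end Pool.Agent.Results.MP_610dff_co.DenseGraphs
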