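import Pool.Agent.OrientedForcing.Holes

/-!
# `MOF(G) ≥ n - μ(G)` for graphs without sparse pairs of large vertex sets

If an orientation of `G` has a forcing set of size at most `s`, let `A` be the set of the vertices
forcing in the first half of the process and `B` the set of the vertices coloured in the second
half. The list of forces (at most `n^(2n)` lists) determines the direction of all edges between `A`
and `B`; if there are more than `2 n log₂ n` of them for all possible `A`, `B`, the number `2^e` of
orientations exceeds the number of orientations with such a forcing set.
-/

open OrientedForcing

set_option autoImplicit false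

namespace Pool.Agent.Results.MP_610dff_co.NoSparsePairs

/-- The inequality of Q1 holds (1) if any two disjoint sets of more than `μ(G) / 2` vertices have
more than `2 n log₂ n` edges between them; (2) if any two disjoint sets of more than `n / 6`
vertices have more than `2 n log₂ n` edges between them. -/
theorem result :
    (∀ (V : Type) [Fintype V] (G : SimpleGraph V),
      (∀ A B : Finset V, Disjoint A B → matchingNumber G Finset.univ < 2 * A.card →
        matchingNumber G Finset.univ < 2 * B.card →
        2 * Fintype.card V * Real.logb 2 (Fintype.card V) < crossEdges G A B) →
      (Fintype.card V : ℤ) - matchingNumber G Finset.univ ≤ MOF G 1) ∧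
    (∀ (V : Type) [Fintype V] (G : SimpleGraph V),
      (∀ A B : Finset V, Disjoint A B → Fintype.card V < 6 * A.card →
        Fintype.card V < 6 * B.card →
        2 * Fintype.card V * Real.logb 2 (Fintype.card V) < crossEdges G A B) →
      (Fintype.card V : ℤ) - matchingNumber G Finset.univ ≤ MOF G 1) :=
  ⟨fun _ _ G h => no_sparse_pair_matching G h, fun _ _ G h => no_sparse_pair_sixth G h⟩

end Pool.Agent.Results.MP_610dff_co.NoSparsePairs
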